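import Pool.Agent.W977.CG.Spec

set_option autoImplicit false

namespace Pool.Agent.W764.CG

open Polynomial

/-- the geometric polynomial -/
noncomputable def G (e : ℕ) : ℚ[X] := ∑ j ∈ Finset.range e, X ^ j

theorem G_coeff (e n : ℕ) : (G e).coeff n = if n < e then 1 else 0 := by
  unfold G
  rw [Polynomial.finset_sum_coeff]
  simp only [Polynomial.coeff_X_pow]
  rw [Finset.sum_ite_eq]
  simp

theorem G_natDegree (e : ℕ) : (G e).natDegree = e - 1 := by
  rcases Nat.eq_zero_or_pos e with h | h
  · subst h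
    simp [G]
  · apply Polynomial.natDegree_eq_of_le_of_coeff_ne_zero
    · rw [Polynomial.natDegree_le_iff_coeff_eq_zero]
      intro n hn
      rw [G_coeff, if_neg (by omega)]
    · rw [G_coeff, if_pos (by omega)]
      exact one_ne_zero

theorem G_reverse (e : ℕ) : (G e).reverse = G e := by
  ext n
  rw [Polynomial.coeff_reverse, G_natDegree]
  rcases le_or_gt n (e - 1) with h | h
  · rw [Polynomial.revAt_le h, G_coeff, G_coeff]
    rcases Nat.eq_zero_or_pos e with h0 | h0
    · subst h0
      simp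
    · rw [if_pos (by omega), if_pos (by omega)]
  · rw [Polynomial.revAt_eq_self_of_lt h]

theorem G_eval_one (e : ℕ) : (G e).eval 1 = e := by
  unfold G
  rw [Polynomial.eval_finset_sum]
  simp

theorem G_ne {e : ℕ} (he : 0 < e) : G e ≠ 0 := by
  intro h
  have := G_coeff e 0
  rw [h, if_pos he] at this
  simp at this

theorem part : _root_.W977.CG.PartPal := by
  intro F D e he A s hA0 hAs hAp hAn hF K R hR
  set E : ℚ[X] := ∏ i, G (e i) with hE
  have hE1 : E.eval 1 = ∏ i, (e i : ℚ) := by
    rw [hE, Polynomial.eval_prod]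
    exact Finset.prod_congr rfl fun i _ => G_eval_one _
  have hE1p : 0 < E.eval 1 := by
    rw [hE1]
    exact Finset.prod_pos fun i _ => by exact_mod_cast he i
  have hEne : E ≠ 0 := by
    intro h
    rw [h] at hE1p
    simp at hE1p
  have hE0 : E.coeff 0 = 1 := by
    rw [hE, Polynomial.coeff_zero_eq_eval_zero, Polynomial.eval_prod]
    apply Finset.prod_eq_one
    intro i _
    rw [← Polynomial.coeff_zero_eq_eval_zero, G_coeff, if_pos (he i)]
  have hprod : (1 - X : ℚ[X]) ^ D * E = ∏ i, (1 - X ^ e i) := by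
    have : ∀ i, (1 - X ^ e i : ℚ[X]) = (1 - X) * G (e i) := fun i =>
      (mul_neg_geom_sum X (e i)).symm
    simp only [this]
    rw [Finset.prod_mul_distrib]
    simp [hE]
  have hprodP : (((1 - X : ℚ[X]) ^ D * E : ℚ[X]) : PowerSeries ℚ) =
      ∏ i, (1 - PowerSeries.X ^ e i) := by
    rw [hprod]
    have h1 : ((∏ i, (1 - X ^ e i) : ℚ[X]) : PowerSeries ℚ) =
        Polynomial.coeToPowerSeries.ringHom (∏ i, (1 - X ^ e i)) := rfl
    rw [h1, map_prod]
    apply Finset.prod_congr rfl
    intro i _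
    simp
  have h1X : ((1 - X : ℚ[X]) : PowerSeries ℚ) = 1 - PowerSeries.X := by simp
  have hpoly : R * ((1 - X) ^ D * E) = A * (1 - X) ^ K := by
    apply Polynomial.coe_injective
    have h2 : ((R * ((1 - X) ^ D * E) : ℚ[X]) : PowerSeries ℚ) =
        (R : PowerSeries ℚ) * (((1 - X : ℚ[X]) ^ D * E : ℚ[X]) : PowerSeries ℚ) :=
      Polynomial.coe_mul _ _
    have h3 : ((A * (1 - X) ^ K : ℚ[X]) : PowerSeries ℚ) =
        (A : PowerSeries ℚ) * (1 - PowerSeries.X) ^ K := by
      rw [Polynomial.coe_mul, Polynomial.coe_pow, h1X]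
    show ((R * ((1 - X) ^ D * E) : ℚ[X]) : PowerSeries ℚ) = ((A * (1 - X) ^ K : ℚ[X]) : PowerSeries ℚ)
    rw [h2, h3, hprodP, ← hR, ← hF]
    ring
  have hcop : IsCoprime E ((1 - X : ℚ[X]) ^ K) := by
    apply IsCoprime.pow_right
    have h4 : IsCoprime (X - C 1 : ℚ[X]) E := by
      rw [(Polynomial.irreducible_X_sub_C (1 : ℚ)).coprime_iff_not_dvd]
      rw [Polynomial.dvd_iff_isRoot]
      intro h
      rw [Polynomial.IsRoot.def] at h
      rw [h] at hE1p
      exact lt_irrefl _ hE1p
    have h5 : (1 - X : ℚ[X]) = -(X - C 1) := by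
      simp
    rw [h5]
    exact h4.symm.neg_right
  have hdvd : E ∣ A := by
    apply hcop.dvd_of_dvd_mul_right
    rw [← hpoly]
    exact ⟨R * (1 - X) ^ D, by ring⟩
  obtain ⟨P, hP⟩ := hdvd
  have hAne : A ≠ 0 := by
    intro h
    rw [h] at hA0
    simp at hA0
  have hPne : P ≠ 0 := by
    intro h
    rw [h, mul_zero] at hP
    exact hAne hP
  have hFP : F * (1 - PowerSeries.X) ^ D = (P : PowerSeries ℚ) := by
    have hEne' : (E : PowerSeries ℚ) ≠ 0 := by
      rw [Ne, Polynomial.coe_eq_zero_iff]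
      exact hEne
    apply mul_right_cancel₀ hEne'
    have h6 : (((1 - X : ℚ[X]) ^ D * E : ℚ[X]) : PowerSeries ℚ) =
        (1 - PowerSeries.X) ^ D * (E : PowerSeries ℚ) := by
      rw [Polynomial.coe_mul, Polynomial.coe_pow, h1X]
    rw [mul_assoc, ← h6, hprodP, hF, hP, Polynomial.coe_mul]
    ring
  have hAdeg : A.natDegree = s := by
    apply Polynomial.natDegree_eq_of_le_of_coeff_ne_zero
    · rw [Polynomial.natDegree_le_iff_coeff_eq_zero]
      intro n hn
      exact hAs n hn
    · rw [hAp s le_rfl, Nat.sub_self, hA0]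
      exact one_ne_zero
  have hEdeg : E.natDegree = ∑ i, (e i - 1) := by
    rw [hE, Polynomial.natDegree_prod _ _ (fun i _ => G_ne (he i))]
    exact Finset.sum_congr rfl fun i _ => G_natDegree _
  have hArev : A.reverse = A := by
    ext n
    rw [Polynomial.coeff_reverse, hAdeg]
    rcases le_or_gt n s with h | h
    · rw [Polynomial.revAt_le h, ← hAp n h]
    · rw [Polynomial.revAt_eq_self_of_lt h]
  have hErev : E.reverse = E := by
    rw [hE]
    apply Finset.prod_induction _ (fun f : ℚ[X] => f.reverse = f)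
    · intro a b ha hb
      rw [Polynomial.reverse_mul_of_domain, ha, hb]
    · show (1 : ℚ[X]).reverse = 1
      rw [← Polynomial.C_1, Polynomial.reverse_C]
    · intro i _
      exact G_reverse _
  have hPrev : P.reverse = P := by
    apply mul_left_cancel₀ hEne
    have h7 : (E * P).reverse = E * P := by
      rw [← hP]
      exact hArev
    rw [Polynomial.reverse_mul_of_domain, hErev] at h7
    exact h7
  refine ⟨P, hFP, ?_, ?_, ?_, ?_⟩
  · rw [← hEdeg, ← hAdeg, hP, Polynomial.natDegree_mul hEne hPne]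
    ring
  · have h8 : A.coeff 0 = E.coeff 0 * P.coeff 0 := by
      rw [hP, Polynomial.mul_coeff_zero]
    rw [hA0, hE0, one_mul] at h8
    exact h8.symm
  · intro n hn
    conv_lhs => rw [← hPrev]
    rw [Polynomial.coeff_reverse, Polynomial.revAt_le hn]
  · have h9 : A.eval 1 = E.eval 1 * P.eval 1 := by
      rw [hP, Polynomial.eval_mul]
    have h10 : 0 < A.eval 1 := by
      rw [Polynomial.eval_eq_sum_range]
      simp only [one_pow, mul_one]
      have h11 : A.coeff 0 ≤ ∑ i ∈ Finset.range (A.natDegree + 1), A.coeff i :=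
        Finset.single_le_sum (f := fun i => A.coeff i) (fun i _ => hAn i) (by simp)
      rw [hA0] at h11
      linarith
    rw [h9] at h10
    exact (pos_iff_pos_of_mul_pos h10).1 hE1p

end Pool.Agent.W764.CG
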